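import Pool.Agent.Helper569.NetUpper

/-!
# Optimal network search may need to traverse a part of an arc three times

The network: nodes `X, Y, Z`, three arcs of length `6` from `X` to `Y`, one arc of length `301` from
`X` to `Z`; the searcher starts at the point `O` at distance `1` from `X` on the long arc.
-/

namespace Pool.Agent.Results.MP_29d814_co.ThriceTraversed

open MeasureTheory Pool.Agent.Helper569.Net
open scoped ENNReal NNReal

/-- There are a network `N` and a starting point `O` for which an optimal (minimax) search strategy
exists, with a finite value, and **every** optimal search strategy follows with positive probability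
a trajectory which traverses some sub-segment of positive length of an arc at least three times
before the whole network has been visited. -/
theorem result : ∃ (N : Network) (O : N.Q),
    (∃ s : MixedSearch N O, IsOptimal s) ∧ value N O < ⊤ ∧
    ∀ s : MixedSearch N O, IsOptimal s →
      ∃ A : Set (Traj N O), MeasurableSet A ∧ (∀ S ∈ A, VisitsMoreThanTwice S) ∧
        0 < (s : Measure (Traj N O)) A :=
  ⟨net, ptO, exists_isOptimal net ptO, value_le.trans_lt ENNReal.coe_lt_top, fun s hs =>
    ⟨evA, measurableSet_evA, visits_of_evA, evA_pos s hs⟩⟩

end Pool.Agent.Results.MP_29d814_co.ThriceTraversed
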